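import Pool.Agent.H411R2.WSK.Conn
import Mathlib

/-!
# Three-colourings of the periodic kagome lattice: the sign invariant

A proper 3-colouring of the periodic kagome lattice is a proper 3-edge-colouring of the periodic
honeycomb graph, that is, three perfect matchings of its bipartition classes, which are both
indexed by `(ℤ/n)²`.  So every colour gives a permutation of `(ℤ/n)²`.  The product of the three
signs does not change under Kempe changes.
-/

set_option autoImplicit false

namespace Pool.Agent.T6.H97.Kagome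

open Pool.Agent.H411R2.WSK Equiv

/-- the three directions -/
def δ (n : ℕ) : Fin 3 → ZMod n × ZMod n := ![(0, 0), (1, 0), (0, 1)]

variable {n : ℕ}

lemma honey_adj (x y : ZMod n × ZMod n) :
    (honeycomb n).Adj (Sum.inl x) (Sum.inr y) ↔ ∃ t, y = x - δ n t := by
  rw [honeycomb, SimpleGraph.fromRel_adj]
  constructor
  · rintro ⟨-, ⟨z, h1, h2⟩ | ⟨z, h1, h2⟩⟩
    · rw [Sum.inl.injEq] at h1
      subst h1
      rcases h2 with h2 | h2 | h2
      · exact ⟨0, by rw [Sum.inr.injEq] at h2; rw [h2]; exact (sub_zero x).symm⟩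
      · exact ⟨1, by rw [Sum.inr.injEq] at h2; rw [h2]; rfl⟩
      · exact ⟨2, by rw [Sum.inr.injEq] at h2; rw [h2]; rfl⟩
    · exact absurd h1 (by simp)
  · rintro ⟨t, rfl⟩
    refine ⟨by simp, Or.inl ⟨x, rfl, ?_⟩⟩
    fin_cases t
    · left; exact congrArg Sum.inr (sub_zero x)
    · right; left; rfl
    · right; right; rfl

lemma honey_not_ll (x y : ZMod n × ZMod n) : ¬ (honeycomb n).Adj (Sum.inl x) (Sum.inl y) := by
  rw [honeycomb, SimpleGraph.fromRel_adj]
  rintro ⟨-, ⟨z, -, h | h | h⟩ | ⟨z, -, h | h | h⟩⟩ <;> exact absurd h (by simp)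

lemma honey_not_rr (x y : ZMod n × ZMod n) : ¬ (honeycomb n).Adj (Sum.inr x) (Sum.inr y) := by
  rw [honeycomb, SimpleGraph.fromRel_adj]
  rintro ⟨-, ⟨z, h, -⟩ | ⟨z, h, -⟩⟩ <;> exact absurd h (by simp)

/-- the edge of type `t` at the vertex `(x, A)` -/
def edge (t : Fin 3) (x : ZMod n × ZMod n) : (honeycomb n).edgeSet :=
  ⟨s(Sum.inl x, Sum.inr (x - δ n t)), (honey_adj _ _).2 ⟨t, rfl⟩⟩

lemma edge_surj (e : (honeycomb n).edgeSet) : ∃ t x, edge t x = e := by
  obtain ⟨e, he⟩ := e
  induction e using Sym2.ind with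
  | _ u v =>
    rw [SimpleGraph.mem_edgeSet] at he
    rcases u with x | x <;> rcases v with y | y
    · exact absurd he (honey_not_ll _ _)
    · obtain ⟨t, ht⟩ := (honey_adj _ _).1 he
      subst ht
      exact ⟨t, x, rfl⟩
    · obtain ⟨t, ht⟩ := (honey_adj _ _).1 he.symm
      subst ht
      exact ⟨t, y, Subtype.ext Sym2.eq_swap⟩
    · exact absurd he (honey_not_rr _ _)

lemma δ_inj (hn : 2 ≤ n) : Function.Injective (δ n) := by
  have : Fact (1 < n) := ⟨by omega⟩
  intro s t h
  fin_cases s <;> fin_cases t <;> simp [δ] at h ⊢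

lemma edge_inj (hn : 2 ≤ n) {t t' : Fin 3} {x x' : ZMod n × ZMod n} (h : edge t x = edge t' x') :
    t = t' ∧ x = x' := by
  have h1 := congrArg Subtype.val h
  simp only [edge, Sym2.eq_iff, Sum.inl.injEq, Sum.inr.injEq, reduceCtorEq, false_and, or_false] at h1
  obtain ⟨rfl, h2⟩ := h1
  exact ⟨δ_inj hn (sub_right_injective h2), rfl⟩

lemma mem_edge_inl {t : Fin 3} {x y : ZMod n × ZMod n} :
    Sum.inl y ∈ (edge t x : (honeycomb n).edgeSet).1 ↔ y = x := by
  simp [edge]

lemma mem_edge_inr {t : Fin 3} {x y : ZMod n × ZMod n} :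
    Sum.inr y ∈ (edge t x : (honeycomb n).edgeSet).1 ↔ y = x - δ n t := by
  simp [edge]

lemma adj_A (hn : 2 ≤ n) {t t' : Fin 3} (h : t ≠ t') (x : ZMod n × ZMod n) :
    (kagome n).Adj (edge t x) (edge t' x) := by
  rw [kagome, SimpleGraph.lineGraph_adj_iff_exists]
  exact ⟨fun h' => h (edge_inj hn h').1, Sum.inl x, mem_edge_inl.2 rfl, mem_edge_inl.2 rfl⟩

lemma adj_B {t t' : Fin 3} {x x' : ZMod n × ZMod n} (h : edge t x ≠ edge t' x')
    (hx : x - δ n t = x' - δ n t') : (kagome n).Adj (edge t x) (edge t' x') := by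
  rw [kagome, SimpleGraph.lineGraph_adj_iff_exists]
  exact ⟨h, Sum.inr (x - δ n t), mem_edge_inr.2 rfl, mem_edge_inr.2 hx⟩

lemma adj_cases {t t' : Fin 3} {x x' : ZMod n × ZMod n} (h : (kagome n).Adj (edge t x) (edge t' x')) :
    (x = x' ∧ t ≠ t') ∨ (x - δ n t = x' - δ n t' ∧ t ≠ t') := by
  rw [kagome, SimpleGraph.lineGraph_adj_iff_exists] at h
  obtain ⟨h1, v, h2, h3⟩ := h
  rcases v with v | v
  · rw [mem_edge_inl] at h2 h3
    subst h2 h3
    refine Or.inl ⟨rfl, ?_⟩
    rintro rfl
    exact h1 rfl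
  · rw [mem_edge_inr] at h2 h3
    rw [h2] at h3
    refine Or.inr ⟨h3, ?_⟩
    rintro rfl
    exact h1 (by rw [sub_left_injective h3])

section invariant

variable (hn : 2 ≤ n) (c : (honeycomb n).edgeSet → Fin 3)

open Classical in
/-- the type of the edge of colour `i` at the vertex `(x, A)` -/
noncomputable def typ (i : Fin 3) (x : ZMod n × ZMod n) : Fin 3 :=
  if h : ∃ t, c (edge t x) = i then h.choose else 0

/-- the partner of `(x, A)` in the matching of colour `i` -/
noncomputable def mv (i : Fin 3) (x : ZMod n × ZMod n) : ZMod n × ZMod n := x - δ n (typ c i x)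

open Classical in
/-- the sign of the matching of colour `i` -/
noncomputable def sg [NeZero n] (i : Fin 3) : ℤˣ :=
  if h : Function.Bijective (mv c i) then Perm.sign (Equiv.ofBijective (mv c i) h) else 1

/-- the product of the three signs -/
noncomputable def P [NeZero n] : ℤˣ := ∏ i, sg c i

variable {c}

lemma inj_A (hn : 2 ≤ n) (hc : Proper (kagome n) c) (x : ZMod n × ZMod n) :
    Function.Injective (fun t => c (edge t x)) := by
  intro t t' h
  by_contra hne
  exact hc _ _ (adj_A hn hne x) h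

lemma exists_typ (hn : 2 ≤ n) (hc : Proper (kagome n) c) (i : Fin 3) (x : ZMod n × ZMod n) :
    ∃ t, c (edge t x) = i :=
  (Finite.injective_iff_surjective.1 (inj_A hn hc x)) i

lemma typ_spec (hn : 2 ≤ n) (hc : Proper (kagome n) c) (i : Fin 3) (x : ZMod n × ZMod n) :
    c (edge (typ c i x) x) = i := by
  have h := exists_typ hn hc i x
  rw [typ, dif_pos h]
  exact h.choose_spec

lemma typ_eq (hn : 2 ≤ n) (hc : Proper (kagome n) c) {i t : Fin 3} {x : ZMod n × ZMod n}
    (h : c (edge t x) = i) : typ c i x = t :=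
  inj_A hn hc x ((typ_spec hn hc i x).trans h.symm)

lemma mv_inj (hn : 2 ≤ n) (hc : Proper (kagome n) c) (i : Fin 3) : Function.Injective (mv c i) := by
  intro x x' h
  by_contra hne
  refine hc _ _ (adj_B (fun h' => hne (edge_inj hn h').2) h)
    ((typ_spec hn hc i x).trans (typ_spec hn hc i x').symm)

lemma mv_bij [NeZero n] (hn : 2 ≤ n) (hc : Proper (kagome n) c) (i : Fin 3) :
    Function.Bijective (mv c i) :=
  Finite.injective_iff_bijective.1 (mv_inj hn hc i)

lemma sg_eq [NeZero n] {i : Fin 3} (h : Function.Bijective (mv c i)) :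
    sg c i = Perm.sign (Equiv.ofBijective (mv c i) h) := by
  rw [sg, dif_pos h]

private lemma Perm.apply_inv_self' {α : Type*} (f : Perm α) (x : α) : f (f⁻¹ x) = x :=
  Equiv.apply_symm_apply f x

private lemma Perm.inv_apply_self' {α : Type*} (f : Perm α) (x : α) : f⁻¹ (f x) = x :=
  Equiv.symm_apply_apply f x

/-- exchanging two permutations on a set does not change the product of the signs -/
lemma sign_exchange {α : Type*} [Fintype α] [DecidableEq α] (f g f' g' : Perm α) (S : Set α)
    (h1 : ∀ x ∈ S, f' x = g x ∧ g' x = f x) (h2 : ∀ x ∉ S, f' x = f x ∧ g' x = g x) :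
    Perm.sign f' * Perm.sign g' = Perm.sign f * Perm.sign g := by
  have key : (g⁻¹ * g') * (f⁻¹ * f') = 1 := by
    ext x
    simp only [Perm.mul_apply, Perm.one_apply]
    by_cases hx : x ∈ S
    · have hy : f⁻¹ (f' x) ∈ S := by
        by_contra hy
        have h3 := (h2 _ hy).1
        rw [Perm.apply_inv_self'] at h3
        rw [f'.injective h3] at hy
        exact hy hx
      have h3 := (h1 _ hy).2
      rw [Perm.apply_inv_self', (h1 x hx).1] at h3
      rw [(h1 x hx).1, h3, Perm.inv_apply_self']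
    · rw [(h2 x hx).1, Perm.inv_apply_self', (h2 x hx).2, Perm.inv_apply_self']
  have h3 := congrArg Perm.sign key
  simp only [Perm.sign_mul, Perm.sign_inv, Perm.sign_one] at h3
  rcases Int.units_eq_one_or (Perm.sign f) with e1 | e1 <;>
  rcases Int.units_eq_one_or (Perm.sign g) with e2 | e2 <;>
  rcases Int.units_eq_one_or (Perm.sign f') with e3 | e3 <;>
  rcases Int.units_eq_one_or (Perm.sign g') with e4 | e4 <;>
  simp [e1, e2, e3, e4] at h3 ⊢

lemma P_swap [NeZero n] (hn : 2 ≤ n) {c c' : (honeycomb n).edgeSet → Fin 3} {a b : Fin 3}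
    {U : Set (honeycomb n).edgeSet} (hc : Proper (kagome n) c) (hab : a ≠ b)
    (hU : Closed (kagome n) c a b U) (hs : IsSwap c c' a b U) : P c' = P c := by
  classical
  have hc' : Proper (kagome n) c' := proper_of_swap hc hU hs
  set S : Set (ZMod n × ZMod n) := {x | ∃ t, edge t x ∈ U} with hS
  -- at a vertex of `S` the edges of colours `a` and `b` are in `U`
  have hmem : ∀ x ∈ S, ∀ t, (c (edge t x) = a ∨ c (edge t x) = b) → edge t x ∈ U := by
    rintro x ⟨s, hs'⟩ t ht
    by_cases hst : s = t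
    · rwa [← hst]
    · exact hU.2 _ hs' _ (adj_A hn hst x) ht
  have hta : ∀ x ∈ S, typ c' a x = typ c b x ∧ typ c' b x = typ c a x := by
    intro x hx
    constructor
    · apply typ_eq hn hc'
      have h1 := typ_spec hn hc b x
      rw [hs.1 _ (hmem x hx _ (Or.inr h1)), h1, Equiv.swap_apply_right]
    · apply typ_eq hn hc'
      have h1 := typ_spec hn hc a x
      rw [hs.1 _ (hmem x hx _ (Or.inl h1)), h1, Equiv.swap_apply_left]
  have htn : ∀ x ∉ S, ∀ i, typ c' i x = typ c i x := by
    intro x hx i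
    apply typ_eq hn hc'
    rw [hs.2 _ (fun h => hx ⟨_, h⟩), typ_spec hn hc]
  have htk : ∀ x, ∀ i, i ≠ a → i ≠ b → typ c' i x = typ c i x := by
    intro x i hia hib
    apply typ_eq hn hc'
    rw [hs.2 _ _, typ_spec hn hc]
    intro h
    have h1 := hU.1 _ h
    rw [typ_spec hn hc] at h1
    rcases h1 with h1 | h1
    · exact hia h1
    · exact hib h1
  have hsgk : ∀ i, i ≠ a → i ≠ b → sg c' i = sg c i := by
    intro i hia hib
    have : mv c' i = mv c i := by
      funext x
      rw [mv, mv, htk x i hia hib]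
    rw [sg, sg, this]
  have hsgab : sg c' a * sg c' b = sg c a * sg c b := by
    rw [sg_eq (mv_bij hn hc a), sg_eq (mv_bij hn hc b), sg_eq (mv_bij hn hc' a),
      sg_eq (mv_bij hn hc' b)]
    apply sign_exchange _ _ _ _ S
    · intro x hx
      simp only [Equiv.ofBijective_apply, mv, (hta x hx).1, (hta x hx).2, and_self]
    · intro x hx
      simp only [Equiv.ofBijective_apply, mv, htn x hx, and_self]
  obtain ⟨k, hka, hkb, hk⟩ : ∃ k : Fin 3, k ≠ a ∧ k ≠ b ∧ ∀ F : Fin 3 → ℤˣ, ∏ i, F i = F a * F b * F k := by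
    have h3 : ∀ a b : Fin 3, a ≠ b → ∃ k : Fin 3, k ≠ a ∧ k ≠ b := by decide
    obtain ⟨k, hka, hkb⟩ := h3 a b hab
    refine ⟨k, hka, hkb, fun F => ?_⟩
    have hun : (Finset.univ : Finset (Fin 3)) = {a, b, k} := by
      have h4 : ∀ a b k : Fin 3, a ≠ b → k ≠ a → k ≠ b →
        (Finset.univ : Finset (Fin 3)) = {a, b, k} := by decide
      exact h4 a b k hab hka hkb
    rw [hun, Finset.prod_insert, Finset.prod_insert, Finset.prod_singleton, mul_assoc]
    · simpa using hkb.symm
    · simp only [Finset.mem_insert, Finset.mem_singleton, not_or]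
      exact ⟨hab, hka.symm⟩
  rw [P, P, hk, hk, hsgab, hsgk k hka hkb]

/-- The product of the signs is invariant under Kempe changes. -/
lemma P_reach [NeZero n] (hn : 2 ≤ n) {c c' : (kagome n).Coloring (Fin 3)}
    (h : Relation.ReflTransGen KempeStep c c') : P (c' : (honeycomb n).edgeSet → Fin 3) = P c := by
  induction h with
  | refl => rfl
  | tail _ hstep ih =>
    obtain ⟨a, b, hab, U, hU, hs⟩ := hstep.closed
    rename_i d d' _
    rw [← ih]
    exact P_swap hn (fun v w h => d.valid h) hab hU hs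

end invariant

end Pool.Agent.T6.H97.Kagome
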