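import Pool.Agent.T6.H97.Kagome

/-!
# Three-colourings of the periodic kagome lattice: two colourings with different signs
-/

set_option autoImplicit false

namespace Pool.Agent.T6.H97.Kagome

open Pool.Agent.H411R2.WSK Equiv

variable {n : ℕ}

/-- the colouring with `f x t` on the edge of type `t` at `(x, A)` -/
noncomputable def ofFun (f : ZMod n × ZMod n → Fin 3 → Fin 3) : (honeycomb n).edgeSet → Fin 3 :=
  fun e => f (edge_surj e).choose_spec.choose (edge_surj e).choose

lemma ofFun_edge (hn : 2 ≤ n) (f : ZMod n × ZMod n → Fin 3 → Fin 3) (t : Fin 3)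
    (x : ZMod n × ZMod n) : ofFun f (edge t x) = f x t := by
  have h := (edge_surj (edge t x)).choose_spec.choose_spec
  obtain ⟨h1, h2⟩ := edge_inj hn h
  exact congr (congrArg f h2) h1

lemma ofFun_proper (hn : 2 ≤ n) (f : ZMod n × ZMod n → Fin 3 → Fin 3)
    (hA : ∀ x, Function.Injective (f x))
    (hB : ∀ y t t', t ≠ t' → f (y + δ n t) t ≠ f (y + δ n t') t') :
    Proper (kagome n) (ofFun f) := by
  intro e e' h
  obtain ⟨t, x, rfl⟩ := edge_surj e
  obtain ⟨t', x', rfl⟩ := edge_surj e'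
  rw [ofFun_edge hn, ofFun_edge hn]
  rcases adj_cases h with ⟨rfl, h1⟩ | ⟨h1, h2⟩
  · exact fun h' => h1 (hA _ h')
  · have := hB (x - δ n t) t t' h2
    rw [sub_add_cancel, h1, sub_add_cancel] at this
    exact this

/-- sign of a permutation which differs from another one by a cycle -/
lemma sign_path {α : Type*} [Fintype α] [DecidableEq α] (f g : Perm α) (m : ℕ) (p : ℕ → α)
    (hp : ∀ i < m + 1, ∀ j < m + 1, p i = p j → i = j) (h0 : p (m + 1) = p 0)
    (h1 : ∀ j < m + 1, f (p j) = g (p (j + 1))) (h2 : ∀ x, (∀ j < m + 1, p j ≠ x) → f x = g x) :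
    Perm.sign f = (-1) ^ m * Perm.sign g := by
  have hinj : Function.Injective (fun j : Fin (m + 1) => p j) := by
    intro i j h
    exact Fin.ext (hp i i.2 j j.2 h)
  have key : g⁻¹ * f = (finRotate (m + 1)).viaFintypeEmbedding ⟨_, hinj⟩ := by
    ext x
    by_cases hx : ∃ j < m + 1, p j = x
    · obtain ⟨j, hj, rfl⟩ := hx
      have e1 := (finRotate (m + 1)).viaFintypeEmbedding_apply_image ⟨_, hinj⟩ ⟨j, hj⟩
      simp only [Function.Embedding.coeFn_mk] at e1
      rw [e1, Perm.mul_apply, h1 j hj]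
      show g.symm (g (p (j + 1))) = _
      rw [Equiv.symm_apply_apply, finRotate_apply, Fin.val_add_one]
      split_ifs with h
      · have : j = m := congrArg Fin.val h
        rw [this, h0]
      · rfl
    · push Not at hx
      rw [Perm.viaFintypeEmbedding_apply_notMem_range, Perm.mul_apply, h2 x hx]
      · exact Equiv.symm_apply_apply g x
      · rintro ⟨j, hj⟩
        exact hx j j.2 hj
  have h3 := congrArg Perm.sign key
  rw [Perm.sign_mul, Perm.sign_inv, Perm.viaFintypeEmbedding_sign, sign_finRotate,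
    Nat.add_sub_cancel] at h3
  rw [← h3]
  rcases Int.units_eq_one_or (Perm.sign g) with e | e <;> simp [e]

/-! ### The two colourings -/

/-- the second colouring, at the vertex `(a, b)`: the colours of the edges of types `0, 1, 2` -/
def F (n a b : ℕ) : Fin 3 → Fin 3 :=
  if b = n - 1 ∧ a ≠ n - 1 then
    (if a = 0 then ![1, 2, 0] else if a = n - 2 then ![2, 0, 1] else ![1, 0, 2])
  else if a = n - 1 ∧ b ≠ n - 1 then
    (if b = n - 2 then ![1, 2, 0] else if b = 0 then ![2, 0, 1] else ![2, 1, 0])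
  else if a + b = n - 2 then
    (if a = 0 then ![2, 0, 1] else if a = n - 2 then ![1, 2, 0] else ![0, 2, 1])
  else ![0, 1, 2]

/-- the types of the edges of colours `0, 1, 2` at the vertex `(a, b)` -/
def G (n a b : ℕ) : Fin 3 → Fin 3 :=
  if b = n - 1 ∧ a ≠ n - 1 then
    (if a = 0 then ![2, 0, 1] else if a = n - 2 then ![1, 2, 0] else ![1, 0, 2])
  else if a = n - 1 ∧ b ≠ n - 1 then
    (if b = n - 2 then ![2, 0, 1] else if b = 0 then ![1, 2, 0] else ![2, 1, 0])
  else if a + b = n - 2 then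
    (if a = 0 then ![1, 2, 0] else if a = n - 2 then ![2, 0, 1] else ![0, 2, 1])
  else ![0, 1, 2]

lemma F_G (n a b : ℕ) : ∀ i, F n a b (G n a b i) = i := by
  unfold F G
  split_ifs <;> decide

lemma F_inj (n a b : ℕ) : Function.Injective (F n a b) := by
  unfold F
  split_ifs <;> decide

/-- successor modulo `n` -/
def s (n a : ℕ) : ℕ := if a + 1 = n then 0 else a + 1

lemma F0 (n a b : ℕ) : F n a b 0 =
    if b = n - 1 ∧ a ≠ n - 1 then (if a = n - 2 ∧ a ≠ 0 then 2 else 1)
    else if a = n - 1 ∧ b ≠ n - 1 then (if b = n - 2 then 1 else 2)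
    else if a + b = n - 2 then (if a = 0 then 2 else if a = n - 2 then 1 else 0)
    else 0 := by
  unfold F
  split_ifs <;> first | rfl | omega

lemma F1 (n a b : ℕ) : F n a b 1 =
    if b = n - 1 ∧ a ≠ n - 1 then (if a = 0 then 2 else 0)
    else if a = n - 1 ∧ b ≠ n - 1 then (if b = n - 2 then 2 else if b = 0 then 0 else 1)
    else if a + b = n - 2 then (if a = 0 then 0 else 2)
    else 1 := by
  unfold F
  split_ifs <;> first | rfl | omega

lemma F2 (n a b : ℕ) : F n a b 2 =
    if b = n - 1 ∧ a ≠ n - 1 then (if a = 0 then 0 else if a = n - 2 then 1 else 2)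
    else if a = n - 1 ∧ b ≠ n - 1 then (if b = 0 ∧ b ≠ n - 2 then 1 else 0)
    else if a + b = n - 2 then (if a = n - 2 ∧ a ≠ 0 then 0 else 1)
    else 2 := by
  unfold F
  split_ifs <;> first | rfl | omega

lemma F_B01 (hn : 3 ≤ n) (a b : ℕ) (ha : a < n) (hb : b < n) :
    F n a b 0 ≠ F n (s n a) b 1 := by
  rw [F0, F1]
  by_cases h : a + 1 = n
  · rw [s, if_pos h]
    split_ifs <;> first | contradiction | omega | decide
  · rw [s, if_neg h]
    split_ifs <;> first | contradiction | omega | decide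

lemma F_B02 (hn : 3 ≤ n) (a b : ℕ) (ha : a < n) (hb : b < n) :
    F n a b 0 ≠ F n a (s n b) 2 := by
  rw [F0, F2]
  by_cases h : b + 1 = n
  · rw [s, if_pos h]
    split_ifs <;> first | contradiction | omega | decide
  · rw [s, if_neg h]
    split_ifs <;> first | contradiction | omega | decide

lemma F_B12 (hn : 3 ≤ n) (a b : ℕ) (ha : a < n) (hb : b < n) :
    F n (s n a) b 1 ≠ F n a (s n b) 2 := by
  rw [F1, F2]
  by_cases h : a + 1 = n <;> by_cases h' : b + 1 = n
  · rw [s, if_pos h, s, if_pos h']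
    split_ifs <;> first | contradiction | omega | decide
  · rw [s, if_pos h, s, if_neg h']
    split_ifs <;> first | contradiction | omega | decide | (exfalso; tauto)
  · rw [s, if_neg h, s, if_pos h']
    split_ifs <;> first | contradiction | omega | decide
  · rw [s, if_neg h, s, if_neg h']
    split_ifs <;> first | contradiction | omega | decide

lemma val_succ [NeZero n] (hn : 2 ≤ n) (a : ZMod n) : (a + 1).val = s n a.val := by
  have h1 : (1 : ZMod n).val = 1 := by
    have : Fact (1 < n) := ⟨by omega⟩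
    exact ZMod.val_one n
  have ha := ZMod.val_lt a
  rw [ZMod.val_add, h1, s]
  split_ifs with h
  · rw [h, Nat.mod_self]
  · rw [Nat.mod_eq_of_lt (by omega)]

/-- the first colouring -/
noncomputable def c0 (n : ℕ) : (honeycomb n).edgeSet → Fin 3 := ofFun fun _ t => t

/-- the second colouring -/
noncomputable def c1 (n : ℕ) : (honeycomb n).edgeSet → Fin 3 := ofFun fun x => F n x.1.val x.2.val

lemma c0_proper (hn : 2 ≤ n) : Proper (kagome n) (c0 n) :=
  ofFun_proper hn _ (fun _ _ _ h => h) (fun _ _ _ h => h)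

lemma c1_proper (hn : 3 ≤ n) : Proper (kagome n) (c1 n) := by
  have : NeZero n := ⟨by omega⟩
  apply ofFun_proper (by omega) _ (fun x => F_inj _ _ _)
  intro y t t' ht
  have h1 := F_B01 hn y.1.val y.2.val (ZMod.val_lt _) (ZMod.val_lt _)
  have h2 := F_B02 hn y.1.val y.2.val (ZMod.val_lt _) (ZMod.val_lt _)
  have h3 := F_B12 hn y.1.val y.2.val (ZMod.val_lt _) (ZMod.val_lt _)
  have e0 : y + δ n 0 = y := add_zero y
  have e1 : (y + δ n 1).1.val = s n y.1.val := by
    rw [← val_succ (by omega)]; simp [δ]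
  have e1' : (y + δ n 1).2 = y.2 := by simp [δ]
  have e2 : (y + δ n 2).1 = y.1 := by simp [δ]
  have e2' : (y + δ n 2).2.val = s n y.2.val := by
    rw [← val_succ (by omega)]; simp [δ]
  fin_cases t <;> fin_cases t' <;> simp only [Fin.zero_eta, Fin.mk_one, Fin.reduceFinMk] at ht ⊢
  · exact absurd rfl ht
  · rw [e0, e1, e1']; exact h1
  · rw [e0, e2, e2']; exact h2
  · rw [e0, e1, e1']; exact h1.symm
  · exact absurd rfl ht
  · rw [e1, e1', e2, e2']; exact h3
  · rw [e0, e2, e2']; exact h2.symm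
  · rw [e1, e1', e2, e2']; exact h3.symm
  · exact absurd rfl ht

lemma mv_c0 (hn : 2 ≤ n) (i : Fin 3) (x : ZMod n × ZMod n) : mv (c0 n) i x = x - δ n i := by
  rw [mv, typ_eq hn (c0_proper hn) (ofFun_edge hn _ _ _)]

lemma mv_c1 (hn : 3 ≤ n) (i : Fin 3) (x : ZMod n × ZMod n) :
    mv (c1 n) i x = x - δ n (G n x.1.val x.2.val i) := by
  rw [mv, typ_eq (by omega) (c1_proper hn)]
  rw [c1, ofFun_edge (by omega)]
  exact F_G _ _ _ _

/-- the three closed paths: first coordinates -/
def pa (n : ℕ) (i : Fin 3) (j : ℕ) : ℕ :=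
  match i with
  | 0 => if j ≤ n - 2 then n - 2 - j else if j = n - 1 then 0 else if j ≤ 2 * n - 2 then n - 1
      else n - 2
  | 1 => if j ≤ n - 2 then j else if j = n - 1 then n - 1 else if j ≤ 2 * n - 2 then j - n
      else n - 1
  | 2 => if j ≤ n - 2 then n - 1 else if j = n - 1 then n - 2 else if j ≤ 2 * n - 2 then 2 * n - 2 - j
      else 0

/-- the three closed paths: second coordinates -/
def pb (n : ℕ) (i : Fin 3) (j : ℕ) : ℕ :=
  match i with
  | 0 => if j ≤ n - 2 then n - 1 else if j = n - 1 then n - 2 else if j ≤ 2 * n - 2 then 2 * n - 2 - j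
      else 0
  | 1 => if j ≤ n - 2 then n - 1 else if j = n - 1 then n - 2 else if j ≤ 2 * n - 2 then 2 * n - 2 - j
      else 0
  | 2 => if j ≤ n - 2 then j else if j = n - 1 then n - 1 else if j ≤ 2 * n - 2 then j - n
      else n - 1

def d1 : Fin 3 → ℕ := ![0, 1, 0]
def d2 : Fin 3 → ℕ := ![0, 0, 1]

lemma δ_eq (t : Fin 3) : δ n t = ((d1 t : ZMod n), (d2 t : ZMod n)) := by
  revert t
  rw [Fin.forall_fin_succ, Fin.forall_fin_two]
  refine ⟨?_, ?_, ?_⟩ <;> simp [δ, d1, d2]

lemma pa_lt (hn : 3 ≤ n) (i : Fin 3) (j : ℕ) (hj : j < 2 * n) : pa n i j < n := by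
  fin_cases i <;> simp only [pa] <;> split_ifs <;> omega

lemma pb_lt (hn : 3 ≤ n) (i : Fin 3) (j : ℕ) (hj : j < 2 * n) : pb n i j < n := by
  fin_cases i <;> simp only [pb] <;> split_ifs <;> omega

lemma p_inj (hn : 3 ≤ n) (i : Fin 3) (j k : ℕ) (hj : j < 2 * n) (hk : k < 2 * n)
    (h1 : pa n i j = pa n i k) (h2 : pb n i j = pb n i k) : j = k := by
  revert h1 h2
  fin_cases i <;> simp only [pa, pb] <;> split_ifs <;> omega

lemma castEq {u v : ℕ} (h : u = v ∨ u = v + n ∨ u + n = v) : (u : ZMod n) = (v : ZMod n) := by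
  rcases h with rfl | rfl | rfl <;> simp

/-- the points of the path -/
def pt (n : ℕ) (i : Fin 3) (j : ℕ) : ZMod n × ZMod n := ((pa n i j : ℕ), (pb n i j : ℕ))

lemma G_0 (n a b : ℕ) : G n a b 0 =
    if b = n - 1 ∧ a ≠ n - 1 then (if a = 0 then 2 else 1)
    else if a = n - 1 ∧ b ≠ n - 1 then (if b = 0 ∧ b ≠ n - 2 then 1 else 2)
    else if a + b = n - 2 then (if a = 0 then 1 else if a = n - 2 then 2 else 0)
    else 0 := by
  unfold G
  split_ifs <;> first | rfl | omega

lemma G_1 (n a b : ℕ) : G n a b 1 =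
    if b = n - 1 ∧ a ≠ n - 1 then (if a = n - 2 ∧ a ≠ 0 then 2 else 0)
    else if a = n - 1 ∧ b ≠ n - 1 then (if b = n - 2 then 0 else if b = 0 then 2 else 1)
    else if a + b = n - 2 then (if a = n - 2 ∧ a ≠ 0 then 0 else 2)
    else 1 := by
  unfold G
  split_ifs <;> first | rfl | omega

lemma G_2 (n a b : ℕ) : G n a b 2 =
    if b = n - 1 ∧ a ≠ n - 1 then (if a = 0 then 1 else if a = n - 2 then 0 else 2)
    else if a = n - 1 ∧ b ≠ n - 1 then (if b = n - 2 then 1 else 0)
    else if a + b = n - 2 then (if a = 0 then 0 else 1)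
    else 2 := by
  unfold G
  split_ifs <;> first | rfl | omega

/-- the step relation on coordinates -/
def Stp (n : ℕ) (i : Fin 3) (a b a' b' : ℕ) (t : Fin 3) : Prop :=
  (a + d1 i = a' + d1 t ∨ a + d1 i = a' + d1 t + n ∨ a + d1 i + n = a' + d1 t) ∧
  (b + d2 i = b' + d2 t ∨ b + d2 i = b' + d2 t + n ∨ b + d2 i + n = b' + d2 t)

lemma step0 (hn : 3 ≤ n) (j : ℕ) (hj : j < 2 * n) :
    Stp n 0 (pa n 0 j) (pb n 0 j) (pa n 0 (if j + 1 = 2 * n then 0 else j + 1))
      (pb n 0 (if j + 1 = 2 * n then 0 else j + 1)) (G n (pa n 0 j) (pb n 0 j) 0) := by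
  rw [G_0]
  simp only [pa, pb, Stp]
  by_cases h : j + 1 = 2 * n
  · simp only [if_pos h]
    split_ifs <;> first | contradiction | omega | (simp only [d1, d2]; simp <;> omega)
  · simp only [if_neg h]
    split_ifs <;> first | contradiction | omega | (simp only [d1, d2]; simp <;> omega)

lemma step1 (hn : 3 ≤ n) (j : ℕ) (hj : j < 2 * n) :
    Stp n 1 (pa n 1 j) (pb n 1 j) (pa n 1 (if j + 1 = 2 * n then 0 else j + 1))
      (pb n 1 (if j + 1 = 2 * n then 0 else j + 1)) (G n (pa n 1 j) (pb n 1 j) 1) := by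
  rw [G_1]
  simp only [pa, pb, Stp]
  by_cases h : j + 1 = 2 * n
  · simp only [if_pos h]
    split_ifs <;> first | contradiction | omega | (simp only [d1, d2]; simp <;> omega)
  · simp only [if_neg h]
    split_ifs <;> first | contradiction | omega | (simp only [d1, d2]; simp <;> omega)

lemma step2 (hn : 3 ≤ n) (j : ℕ) (hj : j < 2 * n) :
    Stp n 2 (pa n 2 j) (pb n 2 j) (pa n 2 (if j + 1 = 2 * n then 0 else j + 1))
      (pb n 2 (if j + 1 = 2 * n then 0 else j + 1)) (G n (pa n 2 j) (pb n 2 j) 2) := by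
  rw [G_2]
  simp only [pa, pb, Stp]
  by_cases h : j + 1 = 2 * n
  · simp only [if_pos h]
    split_ifs <;> first | contradiction | omega | (simp only [d1, d2]; simp <;> omega)
  · simp only [if_neg h]
    split_ifs <;> first | contradiction | omega | (simp only [d1, d2]; simp <;> omega)

lemma step (hn : 3 ≤ n) (i : Fin 3) (j : ℕ) (hj : j < 2 * n) :
    Stp n i (pa n i j) (pb n i j) (pa n i (if j + 1 = 2 * n then 0 else j + 1))
      (pb n i (if j + 1 = 2 * n then 0 else j + 1)) (G n (pa n i j) (pb n i j) i) := by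
  fin_cases i
  · exact step0 hn j hj
  · exact step1 hn j hj
  · exact step2 hn j hj

/-- every vertex at which the type of colour `i` is not `i` is on the path -/
lemma on_path (hn : 3 ≤ n) (i : Fin 3) (a b : ℕ) (ha : a < n) (hb : b < n) (h : G n a b i ≠ i) :
    ∃ j < 2 * n, pa n i j = a ∧ pb n i j = b := by
  have hreg : (b = n - 1 ∧ a ≠ n - 1) ∨ (a = n - 1 ∧ b ≠ n - 1) ∨
      (b ≠ n - 1 ∧ a ≠ n - 1 ∧ a + b = n - 2) := by
    by_contra hcon
    apply h
    rw [G, if_neg (by omega), if_neg (by omega), if_neg (by omega)]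
    fin_cases i <;> rfl
  revert h
  fin_cases i
  · intro h
    simp only [Fin.zero_eta] at h ⊢
    rcases hreg with hr | hr | hr
    · refine ⟨n - 2 - a, by omega, ?_, ?_⟩ <;> simp only [pa, pb] <;> split_ifs <;> omega
    · refine ⟨2 * n - 2 - b, by omega, ?_, ?_⟩ <;> simp only [pa, pb] <;> split_ifs <;> omega
    · by_cases h0 : a = 0
      · refine ⟨n - 1, by omega, ?_, ?_⟩ <;> simp only [pa, pb] <;> split_ifs <;> omega
      · by_cases h1 : a = n - 2
        · refine ⟨2 * n - 1, by omega, ?_, ?_⟩ <;> simp only [pa, pb] <;> split_ifs <;> omega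
        · exfalso
          apply h
          rw [G_0, if_neg (by omega), if_neg (by omega), if_pos (by omega), if_neg h0, if_neg h1]
  · intro h
    simp only [Fin.mk_one] at h ⊢
    rcases hreg with hr | hr | hr
    · refine ⟨a, by omega, ?_, ?_⟩ <;> simp only [pa, pb] <;> split_ifs <;> omega
    · by_cases h0 : b = n - 2
      · refine ⟨n - 1, by omega, ?_, ?_⟩ <;> simp only [pa, pb] <;> split_ifs <;> omega
      · by_cases h1 : b = 0
        · refine ⟨2 * n - 1, by omega, ?_, ?_⟩ <;> simp only [pa, pb] <;> split_ifs <;> omega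
        · exfalso
          apply h
          rw [G_1, if_neg (by omega), if_pos (by omega), if_neg h0, if_neg h1]
    · refine ⟨n + a, by omega, ?_, ?_⟩ <;> simp only [pa, pb] <;> split_ifs <;> omega
  · intro h
    simp only [Fin.reduceFinMk] at h ⊢
    rcases hreg with hr | hr | hr
    · by_cases h0 : a = 0
      · refine ⟨2 * n - 1, by omega, ?_, ?_⟩ <;> simp only [pa, pb] <;> split_ifs <;> omega
      · by_cases h1 : a = n - 2
        · refine ⟨n - 1, by omega, ?_, ?_⟩ <;> simp only [pa, pb] <;> split_ifs <;> omega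
        · exfalso
          apply h
          rw [G_2, if_pos (by omega), if_neg h0, if_neg h1]
    · refine ⟨b, by omega, ?_, ?_⟩ <;> simp only [pa, pb] <;> split_ifs <;> omega
    · refine ⟨n + b, by omega, ?_, ?_⟩ <;> simp only [pa, pb] <;> split_ifs <;> omega

lemma sg_c1 [NeZero n] (hn : 3 ≤ n) (i : Fin 3) : sg (c1 n) i = - sg (c0 n) i := by
  classical
  have hn2 : 2 ≤ n := by omega
  rw [sg_eq (mv_bij hn2 (c1_proper hn) i), sg_eq (mv_bij hn2 (c0_proper hn2) i)]
  have key := sign_path (Equiv.ofBijective _ (mv_bij hn2 (c1_proper hn) i))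
    (Equiv.ofBijective _ (mv_bij hn2 (c0_proper hn2) i)) (2 * n - 1)
    (fun j => pt n i (if j = 2 * n then 0 else j)) ?_ ?_ ?_ ?_
  · rw [key]
    have : (-1 : ℤˣ) ^ (2 * n - 1) = -1 := Odd.neg_one_pow ⟨n - 1, by omega⟩
    rw [this, neg_one_mul]
  · intro j hj k hk h
    rw [if_neg (by omega), if_neg (by omega)] at h
    have h1 := congrArg Prod.fst h
    have h2 := congrArg Prod.snd h
    simp only [pt] at h1 h2
    rw [ZMod.natCast_eq_natCast_iff'] at h1 h2
    rw [Nat.mod_eq_of_lt (pa_lt hn i j (by omega)), Nat.mod_eq_of_lt (pa_lt hn i k (by omega))] at h1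
    rw [Nat.mod_eq_of_lt (pb_lt hn i j (by omega)), Nat.mod_eq_of_lt (pb_lt hn i k (by omega))] at h2
    exact p_inj hn i j k (by omega) (by omega) h1 h2
  · rw [if_pos (by omega), if_neg (by omega)]
  · intro j hj
    simp only [Equiv.ofBijective_apply, mv_c1 hn, mv_c0 hn2]
    rw [if_neg (show ¬ j = 2 * n by omega)]
    have hst := step hn i j (by omega)
    set j' := if j + 1 = 2 * n then 0 else j + 1 with hj'
    have e1 : (pt n i j).1.val = pa n i j := ZMod.val_cast_of_lt (pa_lt hn i j (by omega))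
    have e2 : (pt n i j).2.val = pb n i j := ZMod.val_cast_of_lt (pb_lt hn i j (by omega))
    rw [e1, e2, sub_eq_sub_iff_add_eq_add, δ_eq, δ_eq]
    set t := G n (pa n i j) (pb n i j) i with ht
    obtain ⟨h1, h2⟩ := hst
    have h1' := castEq h1
    have h2' := castEq h2
    push_cast at h1' h2'
    ext
    · simpa [pt] using h1'
    · simpa [pt] using h2'
  · intro x hx
    simp only [Equiv.ofBijective_apply, mv_c1 hn, mv_c0 hn2]
    by_contra hne
    have hG : G n x.1.val x.2.val i ≠ i := fun h => hne (by rw [h])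
    obtain ⟨j, hj, h1, h2⟩ := on_path hn i _ _ (ZMod.val_lt x.1) (ZMod.val_lt x.2) hG
    apply hx j (by omega)
    rw [if_neg (by omega), pt, h1, h2]
    simp

theorem P_c1 [NeZero n] (hn : 3 ≤ n) : P (c1 n) = - P (c0 n) := by
  simp only [P, Fin.prod_univ_three, sg_c1 hn]
  simp

/-- The WSK dynamics for `3` colours on the periodic kagome lattice is not ergodic for `n ≥ 3`. -/
theorem kagome_not_ergodic (hn : 3 ≤ n) : ¬ WSKErgodic (kagome n) 3 := by
  intro h
  have : NeZero n := ⟨by omega⟩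
  have hn2 : 2 ≤ n := by omega
  have h1 := P_reach hn2 (h (toCol (c0 n) (c0_proper hn2)) (toCol (c1 n) (c1_proper hn)))
  have h2 : P (c1 n) = P (c0 n) := h1
  rw [P_c1 hn] at h2
  rcases Int.units_eq_one_or (P (c0 n)) with e | e <;> simp [e] at h2

end Pool.Agent.T6.H97.Kagome
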