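import Pool.Agent.T6.H97.Kagome2

/-!
# Three-colourings of the periodic kagome lattice: the case `n = 2`
-/

set_option autoImplicit false
set_option maxRecDepth 100000

namespace Pool.Agent.T6.H97.Kagome

open Pool.Agent.H411R2.WSK Equiv

/-- neighbour lists -/
def nbt2 : List (List ℕ) := [[1, 2, 5, 7], [0, 2, 6, 11], [0, 1, 3, 10], [2, 4, 5, 10], [3, 5, 8, 9], [0, 3, 4, 7], [1, 7, 8, 11], [0, 5, 6, 8], [4, 6, 7, 9], [4, 8, 10, 11], [2, 3, 9, 11], [1, 6, 9, 10]]

/-- lists of smaller neighbours -/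
def NB2 : List (List ℕ) := [[], [0], [0, 1], [2], [3], [0, 3, 4], [1], [0, 5, 6], [4, 6, 7], [4, 8], [2, 3, 9], [1, 6, 9, 10]]

/-- type of the edge number `v` -/
def tv (v : ℕ) : Fin 3 := ⟨v % 3, Nat.mod_lt _ (by norm_num)⟩

/-- position of the edge number `v` -/
def xv (v : ℕ) : ZMod 2 × ZMod 2 := ((v / 6 : ℕ), (v / 3 : ℕ))

/-- the edge number `v` -/
def ix2 (v : ℕ) : (honeycomb 2).edgeSet := edge (tv v) (xv v)

/-- adjacency of the edges -/
def R2 (t : Fin 3) (x : ZMod 2 × ZMod 2) (t' : Fin 3) (x' : ZMod 2 × ZMod 2) : Prop :=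
  t ≠ t' ∧ (x = x' ∨ x - δ 2 t = x' - δ 2 t')

instance (t : Fin 3) (x : ZMod 2 × ZMod 2) (t' : Fin 3) (x' : ZMod 2 × ZMod 2) :
    Decidable (R2 t x t' x') := by
  unfold R2; infer_instance

lemma adj_R2 (t : Fin 3) (x : ZMod 2 × ZMod 2) (t' : Fin 3) (x' : ZMod 2 × ZMod 2) :
    (kagome 2).Adj (edge t x) (edge t' x') ↔ R2 t x t' x' := by
  constructor
  · intro h
    rcases adj_cases h with ⟨h1, h2⟩ | ⟨h1, h2⟩
    · exact ⟨h2, Or.inl h1⟩
    · exact ⟨h2, Or.inr h1⟩
  · rintro ⟨h1, rfl | h2⟩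
    · exact adj_A le_rfl h1 x
    · exact adj_B (fun h => h1 (edge_inj le_rfl h).1) h2

lemma nbt_adj : ∀ v < 12, ∀ w ∈ nth nbt2 v, w < 12 ∧ R2 (tv v) (xv v) (tv w) (xv w) := by
  decide +kernel

lemma nbt_comp : ∀ v < 12, ∀ t x, R2 (tv v) (xv v) t x →
    ∃ w ∈ nth nbt2 v, tv w = t ∧ xv w = x := by
  decide +kernel

lemma nbt_surj : ∀ t x, ∃ v < 12, tv v = t ∧ xv v = x := by
  decide +kernel

lemma nbt_inj : ∀ v < 12, ∀ w < 12, tv v = tv w → xv v = xv w → v = w := by
  decide +kernel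

lemma nth_nil : ∀ (l : List (List ℕ)) (v : ℕ), l.length ≤ v → nth l v = [] := by
  intro l
  induction l with
  | nil => intro v _; rfl
  | cons x l ih =>
    intro v hv
    cases v with
    | zero => simp at hv
    | succ v => exact ih v (by simpa using hv)

lemma sys2 : Sys (kagome 2) 12 ix2 (nth nbt2) := by
  refine ⟨?_, ?_, ?_, ?_⟩
  · intro y
    obtain ⟨t, x, rfl⟩ := edge_surj y
    obtain ⟨v, hv, h1, h2⟩ := nbt_surj t x
    exact ⟨v, hv, by rw [ix2, h1, h2]⟩
  · intro v hv w hw h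
    obtain ⟨h1, h2⟩ := edge_inj le_rfl h
    exact nbt_inj v hv w hw h1 h2
  · intro v w hw
    by_cases hv : v < 12
    · obtain ⟨h1, h2⟩ := nbt_adj v hv w hw
      exact ⟨h1, (adj_R2 _ _ _ _).2 h2⟩
    · rw [nth_nil nbt2 v (by simpa [nbt2] using hv)] at hw
      simp at hw
  · intro v hv y hy
    obtain ⟨t, x, rfl⟩ := edge_surj y
    obtain ⟨w, hw, h1, h2⟩ := nbt_comp v hv t x ((adj_R2 _ _ _ _).1 hy)
    exact ⟨w, hw, by rw [ix2, h1, h2]⟩

/-- the code of the base colouring -/
def s2 : ℕ := 9586980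

/-- the base colouring -/
noncomputable def base2 : (honeycomb 2).edgeSet → Fin 3 :=
  ofFun fun x t => if dig s2 (6 * x.1.val + 3 * x.2.val + t.val) = 0 then 0 else
    if dig s2 (6 * x.1.val + 3 * x.2.val + t.val) = 1 then 1 else 2

lemma base2_ix (v : ℕ) (hv : v < 12) : (base2 (ix2 v)).val = dig s2 v := by
  rw [base2, ix2, ofFun_edge le_rfl]
  revert v
  decide +kernel

/-- the certificate -/
def cert2 : Cert := (.br (.br .no (.br .no .no (.br (.br .no (.br .no .no (.br (.br .no (.br .no .no (.br (.br .no (.br .no .no .lf .no) .no .no) .no .no .no) .no) .no .no) .no (.br .no (.br (.br .no .no (.br .no (.br (.sw 0 2 [6,8,9,11]) .no .no .no) .no .no) .no) .no .no .no) .no .no) .no) .no) (.br .no (.br (.br .no .no (.br .no (.br (.sw 1 2 [4,5,7,8]) .no .no .no) .no .no) .no) .no (.br .no .no .no .no) .no) .no .no) .no) (.br (.br .no .no (.br (.br .no (.br .no .no (.br .no (.br (.br .no .no (.sw 0 1 [3,4,9,10]) .no) .no .no .no) .no .no) .no) .no .no) .no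 (.br .no (.br .no .no .no .no) .no .no) .no) .no) .no (.br .no .no .no .no) .no) .no .no) .no) (.br .no (.br (.br .no (.br .no .no (.br (.br .no (.br .no .no (.br (.br .no .no (.br .no (.sw 1 2 [1,2,10,11]) .no .no) .no) .no .no .no) .no) .no .no) (.br .no .no .no .no) .no .no) .no) (.br .no (.br (.br .no .no (.br .no (.br (.sw 1 2 [4,5,7,8]) .no .no .no) .no .no) .no) (.br .no .no (.br (.br .no (.br .no .no (.br (.sw 0 1 [6,8,9,11]) .no .no .no) .no) .no .no) .no .no .no) .no) .no .no) .no .no) .no) .no (.br (.br .no (.br (.br .no .no (.br .no (.br .no .no (.br (.br .no (.sw 0 2 [3,4,9,10]) .no .no) .no .no .no) .no) .no .no) .no) (.br .no .no (.br .no .no .no .no) .no) .no .no) .no .no) (.br .no .no .no .no) .no .no) .no) .no .no) .no) (.br (.br .no .no (.br (.br .no (.br .no .no (.br .no (.br (.br .no .no (.br (.br .no (.br .no .no (.sw 0 1 [0,1,6,7]) .no) .no .no) .no .no .no) .no) .no .no .no) (.br (.br .no .no .no .no) .no .no .no) .no) .no) (.br .no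 .no .no .no) .no) (.br (.br .no .no (.br .no (.br (.br .no .no (.br .no (.br (.br .no .no (.sw 0 1 [0,1,6,7]) .no) .no .no .no) .no .no) .no) .no .no .no) (.br (.br .no (.br .no .no (.br (.br .no (.sw 0 1 [0,1,3,4,7,8,10,11]) .no .no) .no .no .no) .no) .no .no) .no .no .no) .no) .no) .no (.br (.br .no (.br .no .no (.br (.br .no (.sw 0 2 [4,5,7,8]) .no .no) .no .no .no) .no) (.br .no .no .no .no) .no) .no .no .no) .no) .no .no) .no) .no (.br (.br .no (.br (.br .no .no (.br (.br .no .no .no .no) (.br (.br .no .no (.br .no (.br .no .no (.br (.sw 0 1 [0,2,3,4,6,7,9,11]) .no .no .no) .no) .no .no) .no) .no .no .no) .no .no) .no) .no (.br (.br (.br .no .no (.br .no (.br (.br .no .no (.sw 0 1 [0,2,3,5]) .no) .no .no .no) .no .no) .no) (.br .no .no (.br (.br .no (.sw 0 2 [4,5,7,8]) .no .no) .no .no .no) .no) .no .no) .no .no .no) .no) (.br (.br .no .no .no .no) (.br (.br (.br .no .no (.br .no .no .no .no) .no) (.br .no .no (.br (.br .no .no (.br .no (.br (.sw 0 1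 [0,2,4,5,6,8,10,11]) .no .no .no) .no .no) .no) .no .no .no) .no) .no .no) .no .no .no) .no .no) .no) .no .no .no) .no) (.br (.br .no (.br (.br .no (.br .no .no .no .no) (.br .no (.br .no (.br (.br .no .no .no .no) .no .no .no) (.br (.br .no (.br (.br .no .no (.br .no (.sw 0 2 [0,1,6,7]) .no .no) .no) .no .no .no) .no .no) .no .no .no) .no) .no .no) .no) .no (.br (.br .no (.br .no (.br (.br .no .no (.br .no (.br (.sw 1 2 [0,2,3,5]) .no .no .no) .no .no) .no) .no .no .no) (.br (.br .no (.br .no .no (.br (.sw 1 2 [0,2,3,5]) .no .no .no) .no) .no .no) .no .no .no) .no) .no .no) (.br (.br .no (.br .no .no .no .no) (.br .no (.br (.br .no .no (.sw 0 1 [4,5,7,8]) .no) .no .no .no) .no .no) .no) .no .no .no) .no .no) .no) .no .no) (.br (.br .no (.br (.br .no .no .no .no) .no (.br (.br (.br .no (.br .no .no .no .no) .no .no) .no (.br .no (.br (.br .no (.br .no .no (.br (.sw 0 1 [1,2,3,5,7,8,9,11]) .no .no .no) .no) .no .no) .no .no .no) .no .no) .no) .no .no .no) .no)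 (.br (.br .no (.br (.br .no .no .no .no) .no (.br (.br .no (.br .no .no (.br .no (.br (.sw 0 1 [1,2,10,11]) .no .no .no) .no .no) .no) .no .no) .no .no .no) .no) .no .no) (.br (.br (.br .no (.br .no .no (.br (.br .no (.sw 0 2 [0,2,3,5]) .no .no) .no .no .no) .no) .no .no) .no (.br .no (.br (.br .no .no (.sw 0 1 [4,5,7,8]) .no) .no .no .no) .no .no) .no) .no .no .no) .no .no) .no) .no .no .no) .no .no) .no)

/-- the instance -/
noncomputable def inst2' : Inst := ⟨3, nth nbt2, fun _ v => v, fun _ _ => false, [(12, s2)]⟩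

lemma base2_proper : Proper (kagome 2) base2 := by
  intro x y hxy h
  have S := sys2
  obtain ⟨v, hv, rfl⟩ := S.surj x
  obtain ⟨w, hw, rfl⟩ := S.comp v hv y hxy
  have h1 := congrArg Fin.val h
  rw [base2_ix v hv, base2_ix w (S.adj v w hw).1] at h1
  have h2 : ∀ v < 12, ∀ w ∈ nth nbt2 v, dig s2 v ≠ dig s2 w := by decide +kernel
  exact h2 v hv w hw h1

lemma solved2 : Solved (q := 3) (kagome 2) 12 ix2 (fun c => Conn (kagome 2) c base2) 0 0 := by
  refine check_sound inst2' rfl (show 3 ≤ 4 by norm_num) sys2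
    (fun c a b U hc hab hU h => conn_hswap c a b U hc hab hU h) ?_ ?_ ?_ cert2 NB2 0 0 1 ?_
    (by norm_num) (by norm_num) (by norm_num) ?_
  · intro g pi h
    exact absurd h (by simp [inst2'])
  · intro g pi h
    exact absurd h (by simp [inst2'])
  · intro k s hks
    simp only [inst2', List.mem_singleton, Prod.mk.injEq] at hks
    obtain ⟨rfl, rfl⟩ := hks
    intro c hc hm _
    have : c = base2 := by
      funext y
      obtain ⟨v, hv, rfl⟩ := sys2.surj y
      apply Fin.ext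
      rw [base2_ix v hv, hm.2 v hv]
    rw [this]
    exact Conn.refl base2_proper
  · have h : ∀ k, k < 12 → ∀ u ∈ (NB2.getD k []), u < k ∧ u ∈ nth nbt2 k := by decide +kernel
    simp only [NB2, NBok]
    decide +kernel
  · decide +kernel

/-- The WSK dynamics for `3` colours on the `2 × 2` periodic kagome lattice is ergodic. -/
theorem kagome_two_ergodic : WSKErgodic (kagome 2) 3 :=
  ergodic_of_conn (base := base2) fun c hc => good_of_solved solved2 c hc

end Pool.Agent.T6.H97.Kagome
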